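import Pool.Agent.Q269.ShaFour.Alg

/-!
# Project SelFour: the doubles of order two
-/

set_option autoImplicit false

namespace Pool.Agent.Q269.SelFour

open Pool.Agent.Q269.ShaFour (V2 mem_V2 fin_card)

/-- doubling -/
def dbl (S : Type) [AddCommGroup S] : S →+ S :=
  AddMonoidHom.mk' (fun x => x + x) (fun x y => by abel)

lemma dbl_apply {S : Type} [AddCommGroup S] (x : S) : dbl S x = x + x := rfl

/-- the elements of order dividing 2 which are divisible by 2 -/
def D2 (S : Type) [AddCommGroup S] : Set S := {x | x + x = 0 ∧ ∃ y, x = y + y}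

theorem fin4 {S : Type} [AddCommGroup S] (hfin : Finite (V2 S)) :
    Finite ((V2 S).comap (dbl S)) := by
  let f : (V2 S).comap (dbl S) →+ V2 S :=
    AddMonoidHom.mk' (fun x => ⟨x.1 + x.1, x.2⟩) (fun x y => Subtype.ext (by
      change x.1 + y.1 + (x.1 + y.1) = (x.1 + x.1) + (y.1 + y.1)
      abel))
  have hk : Finite f.ker := by
    refine Finite.of_injective (β := V2 S) (fun x => ⟨x.1.1, ?_⟩) (fun x y hxy => ?_)
    · have := x.2
      rw [AddMonoidHom.mem_ker] at this
      exact congrArg Subtype.val this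
    · have h0 := congrArg Subtype.val hxy
      exact Subtype.ext (Subtype.ext h0)
  exact (fin_card f hk (Finite.of_injective _ Subtype.val_injective)).1

/-- **the doubles of order two** under homomorphisms whose composition is the doubling -/
theorem doubles {S S' : Type} [AddCommGroup S] [AddCommGroup S'] (g : S →+ S') (h : S' →+ S)
    (hgh : ∀ x, h (g x) = x + x) (hfin : Finite (V2 S')) :
    (D2 S).Finite ∧ (D2 S).ncard ≤ Nat.card (V2 S') := by
  have hfin4 := fin4 hfin
  let A : AddSubgroup S' := ((V2 S).comap (dbl S)).map g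
  have hA : ∀ a ∈ A, a ∈ (V2 S').comap (dbl S') := by
    rintro a ⟨y, hy, rfl⟩
    have hy' : (y + y) + (y + y) = 0 := hy
    change (g y + g y) + (g y + g y) = 0
    rw [← map_add, ← map_add, hy', map_zero]
  have hAf : Finite A := Finite.of_injective (β := (V2 S').comap (dbl S'))
    (fun a => ⟨a.1, hA a.1 a.2⟩) (fun a b hab => by
      have h0 := Subtype.ext_iff.1 hab
      exact Subtype.ext h0)
  let k : A →+ S := h.comp A.subtype
  let dA : A →+ A := dbl A
  have hr : ∀ x : S, x ∈ k.range ↔ x ∈ D2 S := by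
    intro x
    constructor
    · rintro ⟨⟨a, y, hy, rfl⟩, rfl⟩
      have hy' : (y + y) + (y + y) = 0 := hy
      change h (g y) + h (g y) = 0 ∧ ∃ z, h (g y) = z + z
      rw [hgh]
      exact ⟨hy', y, rfl⟩
    · rintro ⟨h1, y, rfl⟩
      exact ⟨⟨g y, y, h1, rfl⟩, hgh y⟩
  have hle : Nat.card dA.range ≤ Nat.card k.ker := by
    refine Nat.card_le_card_of_injective (fun x => ⟨x.1, ?_⟩) (fun x y hxy => ?_)
    · obtain ⟨⟨a, y, hy, rfl⟩, hx⟩ := x.2
      have hy' : (y + y) + (y + y) = 0 := hy
      rw [AddMonoidHom.mem_ker, ← hx]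
      change h (g y + g y) = 0
      rw [map_add, hgh, hy']
    · have h0 := congrArg Subtype.val hxy
      exact Subtype.ext h0
  have hkr : Finite k.range := Finite.of_surjective _ k.rangeRestrict_surjective
  obtain ⟨-, c1⟩ := fin_card k inferInstance hkr
  obtain ⟨-, c2⟩ := fin_card dA inferInstance (Finite.of_surjective _ dA.rangeRestrict_surjective)
  have hpos : 0 < Nat.card k.ker := Nat.card_pos
  have h1 : Nat.card k.range ≤ Nat.card dA.ker := by
    have h2 : Nat.card k.range * Nat.card k.ker ≤ Nat.card dA.ker * Nat.card k.ker := by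
      rw [mul_comm, ← c1, c2]
      exact Nat.mul_le_mul_left _ hle
    exact Nat.le_of_mul_le_mul_right h2 hpos
  have h3 : Nat.card dA.ker ≤ Nat.card (V2 S') := by
    refine Nat.card_le_card_of_injective (fun x => ⟨x.1.1, ?_⟩) (fun x y hxy => ?_)
    · have := x.2
      rw [AddMonoidHom.mem_ker] at this
      exact congrArg Subtype.val this
    · have h0 := congrArg Subtype.val hxy
      exact Subtype.ext (Subtype.ext h0)
  have e : (k.range : Set S) = D2 S := Set.ext hr
  have hkf : (k.range : Set S).Finite := hkr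
  refine ⟨e ▸ hkf, ?_⟩
  rw [← e, ← Nat.card_coe_set_eq]
  exact h1.trans h3

end Pool.Agent.Q269.SelFour
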