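import Pool.Agent.Q269.SelFour.Inf
import Pool.Agent.Q269.CondFour.Alg
import Pool.Agent.Z864.SX.SelH
import Pool.Agent.W513.FK.Parf

/-!
# Project SelFour: the curves with a rational cyclic subgroup of order four
-/

set_option autoImplicit false
set_option linter.unusedSectionVars false

namespace Pool.Agent.Q269.SelFour

open WeierstrassCurve Pool.Agent.TH841.SH.D
open Pool.Agent.Y667.BK (SelInf)
open Pool.Agent.Q269.ShaFour
open Pool.Agent.Y833.SX (PC ga)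
open Pool.Agent.TH841.SH (IsR)
open Pool.Agent.TH841.PT (EQ)
open Pool.Agent.TH841.LS (WI)
open Pool.Agent.W307.RT (Sh Cv HasT)
open Pool.Agent.W307.SE (SelR)
open Pool.Agent.Y676.IS (exists_NH)
open Pool.Agent.Q269.IsoFour
open Pool.Agent.Q269.CondFour (vr_EQ delta_EQ vr_scale)

/-- the curves with full 2-torsion -/
theorem sel_full {c : ℤ × ℤ} (hD : Dn c) (hT : HasT 2 (Sh c.1 c.2)) (hS : (SelR c.1 c.2).Finite) :
    Finite (V2 (SelInf (Sh c.1 c.2))) ∧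
      4 * Nat.card (V2 (SelInf (Sh c.1 c.2))) = (SelR c.1 c.2).ncard := by
  obtain ⟨F, -, hF⟩ := Pool.Agent.W513.FK.parf
  obtain ⟨-, -, -, -, -, e1, e2, e3, he, -, -⟩ := hF c hD hT
  obtain ⟨h1, h2⟩ := Pool.Agent.Z864.SX.SELH c.1 c.2 e1 e2 e3 hD he hS
  obtain ⟨h6, h7⟩ := Pool.Agent.Y833.SX.SELI c.1 c.2 e1 e2 e3 hD he h1
  rw [h2] at h7
  exact ⟨h6, h7⟩

/-- the homomorphisms between the `2 ^ ∞`-Selmer groups -/
theorem exists_gh {c : ℤ × ℤ} {d : (ℤ × ℤ) × ℤ} (hR : FR c d) (hD : Dn c) (hDd : Dn d.1) :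
    ∃ (g : SelInf (Sh c.1 c.2) →+ SelInf (Sh d.1.1 d.1.2))
      (h : SelInf (Sh d.1.1 d.1.2) →+ SelInf (Sh c.1 c.2)), ∀ x, h (g x) = x + x := by
  obtain ⟨e, s, u, ⟨h1, h2⟩, hu, -, h4, h5⟩ := hR
  have g1 : s ^ 2 - 3 * e ^ 2 = 1 ^ 4 * c.1 := by rw [h1]; ring
  have g2 : 2 * e ^ 3 - s ^ 2 * e = 1 ^ 6 * c.2 := by rw [h2]; ring
  obtain ⟨n1, n2, n3⟩ := par_ne hD g1 g2 one_ne_zero
  obtain ⟨f1⟩ := inf_vr (vr_WI (c := c) (r := e) one_ne_zero (by ring) g1 g2) (delta_WI n1 n2 n3)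
  obtain ⟨f2⟩ := inf_vr vr_EQ (delta_EQ n1 n2 n3)
  obtain ⟨f3⟩ := inf_vr (vr_scale hu.ne' h4 h5) (sh_ne hDd)
  obtain ⟨ψ, φ, p1, -, -⟩ := exists_NH n3 n1 n2
  refine ⟨(f3.symm.toAddMonoidHom.comp f2.toAddMonoidHom).comp
      ((inf ψ).comp f1.symm.toAddMonoidHom),
    (f1.toAddMonoidHom.comp (inf φ)).comp (f2.symm.toAddMonoidHom.comp f3.toAddMonoidHom),
    fun x => ?_⟩
  change f1 (inf φ (f2.symm (f3 (f3.symm (f2 (inf ψ (f1.symm x))))))) = x + x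
  rw [f3.apply_symm_apply, f2.symm_apply_apply, inf_comp_two ψ φ p1, map_add,
    f1.apply_symm_apply]

/-- the number of the doubles of order dividing 2 in the `2 ^ ∞`-Selmer group -/
noncomputable def r4 (c : ℤ × ℤ) : ℕ := (D2 (SelInf (Sh c.1 c.2))).ncard

/-- **the comparison** -/
theorem r4_le {c : ℤ × ℤ} {d : (ℤ × ℤ) × ℤ} (hR : FR c d) (hD : Dn c) (hDd : Dn d.1)
    (hT : HasT 2 (Sh d.1.1 d.1.2)) (hS : (SelR d.1.1 d.1.2).Finite) :
    (D2 (SelInf (Sh c.1 c.2))).Finite ∧ 4 * r4 c ≤ (SelR d.1.1 d.1.2).ncard := by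
  obtain ⟨g, h, hgh⟩ := exists_gh hR hD hDd
  obtain ⟨h1, h2⟩ := sel_full hDd hT hS
  obtain ⟨h3, h4⟩ := doubles g h hgh h1
  refine ⟨h3, ?_⟩
  rw [← h2]
  exact Nat.mul_le_mul_left _ h4

/-- the points of order two over the algebraic closure -/
theorem roots4 {c : ℤ × ℤ} {e s : ℤ} (hP : Pr c e s) (hD : Dn c) :
    ∃ x y z : AlgebraicClosure ℚ, IsR ((Sh c.1 c.2).baseChange (AlgebraicClosure ℚ)) x y z ∧
      x ≠ y ∧ x ≠ z ∧ y ≠ z := by
  obtain ⟨h1, h2⟩ := hP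
  have g1 : s ^ 2 - 3 * e ^ 2 = 1 ^ 4 * c.1 := by rw [h1]; ring
  have g2 : 2 * e ^ 3 - s ^ 2 * e = 1 ^ 6 * c.2 := by rw [h2]; ring
  obtain ⟨n1, n2, n3⟩ := par_ne hD g1 g2 one_ne_zero
  obtain ⟨w, hw⟩ := IsAlgClosed.exists_pow_nat_eq
    (((9 * e ^ 2 - 4 * s ^ 2 : ℤ) : AlgebraicClosure ℚ)) (n := 2) (by norm_num)
  have hprod : 9 * e ^ 2 - 4 * s ^ 2 = (3 * e + 2 * s) * (3 * e - 2 * s) := by ring
  have hne : (9 * e ^ 2 - 4 * s ^ 2 : ℤ) ≠ 0 := by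
    rw [hprod]
    exact mul_ne_zero n1 n2
  have hw0 : w ≠ 0 := by
    rintro rfl
    rw [zero_pow two_ne_zero] at hw
    exact hne (by exact_mod_cast hw.symm)
  have hs : s ≠ 0 := by
    rintro rfl
    apply n3
    ring
  have hw' : w ^ 2 = 9 * (e : AlgebraicClosure ℚ) ^ 2 - 4 * (s : AlgebraicClosure ℚ) ^ 2 := by
    rw [hw]
    push_cast
    ring
  have hs' : (s : AlgebraicClosure ℚ) ≠ 0 := by exact_mod_cast hs
  have h3 : ∀ t : AlgebraicClosure ℚ, t ^ 2 = w ^ 2 → (e : AlgebraicClosure ℚ) ≠ (-e + t) / 2 := by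
    intro t ht h
    have h5 : t = 3 * e := by linear_combination (-2) * h
    rw [h5, hw'] at ht
    have h6 : 4 * (s : AlgebraicClosure ℚ) ^ 2 = 0 := by linear_combination ht
    rcases mul_eq_zero.1 h6 with h7 | h7
    · norm_num at h7
    · exact hs' (pow_eq_zero_iff two_ne_zero |>.1 h7)
  refine ⟨e, (-e + w) / 2, (-e + -w) / 2, ⟨?_, ?_, ?_, ?_, ?_⟩, h3 w rfl, h3 (-w) (by ring), ?_⟩
  · change algebraMap ℚ (AlgebraicClosure ℚ) 0 = 0
    exact map_zero _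
  · change algebraMap ℚ (AlgebraicClosure ℚ) 0 = _
    rw [map_zero]
    ring
  · change algebraMap ℚ (AlgebraicClosure ℚ) 0 = 0
    exact map_zero _
  · change algebraMap ℚ (AlgebraicClosure ℚ) (c.1 : ℚ) = _
    rw [map_intCast, h1]
    push_cast
    linear_combination (1 / 4) * hw'
  · change algebraMap ℚ (AlgebraicClosure ℚ) (c.2 : ℚ) = _
    rw [map_intCast, h2]
    push_cast
    linear_combination (-(e : AlgebraicClosure ℚ) / 4) * hw'
  · intro h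
    apply hw0
    linear_combination h

/-- **the elements of order two of the `2 ^ ∞`-Selmer group and of `Ш`** -/
theorem two_sha {c : ℤ × ℤ} {e s : ℤ} (hP : Pr c e s) (hD : Dn c)
    (hfin : Finite (V2 (Sha (Sh c.1 c.2)))) :
    Finite (V2 (SelInf (Sh c.1 c.2))) ∧
    Nat.card (V2 (Sha (Sh c.1 c.2))) ≤ Nat.card (V2 (SelInf (Sh c.1 c.2))) ∧
    Nat.card (V2 (SelInf (Sh c.1 c.2))) ≤ 2 ^ (rk c + 2) * Nat.card (V2 (Sha (Sh c.1 c.2))) := by
  classical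
  obtain ⟨x, y, z, hR, hxy, hxz, hyz⟩ := roots4 hP hD
  obtain ⟨W, hW⟩ : ∃ W, W = Sh c.1 c.2 := ⟨_, rfl⟩
  have hrk : Module.finrank ℤ W.toAffine.Point = rk c := by rw [hW]; rfl
  rw [← hW] at hR hfin ⊢
  have hdiv : ∀ P : PC W, ∃ Q : PC W, P = Q + Q := fun P => hR.div two_ne_zero hxy hxz hyz P
  have hfg : AddGroup.FG W.toAffine.Point := by
    rw [hW]
    exact Pool.Agent.Q286.EQ.mordell_weil ℚ _ (sh_ne hD)
  obtain ⟨k1, k2⟩ := pr_ker hdiv hfg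
  -- the torsion
  obtain ⟨j, hinj, -, -⟩ := ex_rat W
  have hc4 : Nat.card {T : PC W // T + T = 0} = 4 :=
    @Pool.Agent.Y833.SX.card_tors _ _ (Classical.decEq _) _ _ _ _ hR two_ne_zero hxy hxz hyz
  have hf4 : Finite {T : PC W // T + T = 0} := Nat.finite_of_card_ne_zero (by rw [hc4]; norm_num)
  have ht : Nat.card {x : W.toAffine.Point // x + x = 0} ≤ 4 := by
    rw [← hc4]
    refine Nat.card_le_card_of_injective (fun x => ⟨j x.1, by rw [← map_add, x.2, map_zero]⟩)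
      (fun x y hxy => ?_)
    have h0 := Subtype.ext_iff.1 hxy
    exact Subtype.ext (hinj h0)
  let p : V2 (SelInf W) →+ V2 (Sha W) :=
    AddMonoidHom.mk' (fun x => ⟨pr W x.1, by
      rw [mem_V2, ← map_add, mem_V2.1 x.2, map_zero]⟩) (fun x y => Subtype.ext (map_add (pr W) _ _))
  have hps : Function.Surjective p := by
    intro y
    obtain ⟨x, hx1, hx2⟩ := pr_surj hdiv (mem_V2.1 y.2)
    exact ⟨⟨x, hx1⟩, Subtype.ext hx2⟩
  have hi : Function.Injective (fun x : p.ker =>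
      (⟨x.1.1, x.1.2, congrArg Subtype.val (AddMonoidHom.mem_ker.1 x.2)⟩ :
        {x : SelInf W // x + x = 0 ∧ pr W x = 0})) := by
    intro x y hxy
    have h0 := Subtype.ext_iff.1 hxy
    exact Subtype.ext (Subtype.ext h0)
  have hkf : Finite p.ker := Finite.of_injective _ hi
  have hkc : Nat.card p.ker ≤ 2 ^ (rk c + 2) := by
    refine (Nat.card_le_card_of_injective _ hi).trans (k2.trans ?_)
    rw [hrk, pow_add]
    exact Nat.mul_le_mul_left _ ht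
  obtain ⟨f1, f2⟩ := fin_card p hkf (Finite.of_injective _ Subtype.val_injective)
  have hr : Nat.card p.range = Nat.card (V2 (Sha W)) := by
    rw [AddMonoidHom.range_eq_top.2 hps]
    exact Nat.card_congr (Equiv.Set.univ _)
  rw [hr] at f2
  refine ⟨f1, ?_, ?_⟩
  · rw [f2]
    exact Nat.le_mul_of_pos_left _ Nat.card_pos
  · rw [f2]
    exact Nat.mul_le_mul_right _ hkc

end Pool.Agent.Q269.SelFour
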