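import Pool.Agent.Q269.SelFour.Alg
import Pool.Agent.Y833.SX.Sel
import Pool.Agent.Y214.SX.Rk

/-!
# Project SelFour: maps between the `2 ^ ∞`-Selmer groups, and the sequence with `Ш`
-/

set_option autoImplicit false
set_option linter.unusedSectionVars false

namespace Pool.Agent.Q269.SelFour

open WeierstrassCurve Pool.Agent.TH841.SH.D
open Pool.Agent.Y667.BK (SelInf selInfCoc cobInf IsSelInf IsTor2 IsCobInf)
open Pool.Agent.Y676.IS (NH cls cls_surj cls_eq cls_zero_iff)
open Pool.Agent.Q269.ShaFour (V2 mem_V2 fin_card nhI)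
open Pool.Agent.Y833.SX (PC ga cb sha_cob thalf tadd tneg)
open Pool.Agent.TH841.SH (IsR exists_rat)

variable {W W' : WeierstrassCurve ℚ}

/-- the push forward on the Selmer cocycles -/
noncomputable def infC (ψ : NH W W') : selInfCoc W →+ selInfCoc W' where
  toFun c := ⟨ψ.psh c.1, (ψ.shaC ⟨c.1, c.2.1⟩).2, fun σ => by
    obtain ⟨m, hm⟩ := c.2.2 σ
    refine ⟨m, ?_⟩
    change (2 ^ m : ℕ) • ψ.f _ (c.1 σ) = 0
    rw [← map_nsmul, hm, map_zero]⟩
  map_zero' := Subtype.ext (by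
    funext σ
    exact map_zero (ψ.f _))
  map_add' c c' := Subtype.ext (by
    funext σ
    exact map_add (ψ.f _) _ _)

lemma infC_cob (ψ : NH W W') {c : selInfCoc W} (h : IsCobInf W c.1) :
    IsCobInf W' (infC ψ c).1 := by
  obtain ⟨P, ⟨m, hm⟩, hP⟩ := h
  refine ⟨ψ.f _ P, ⟨m, by rw [← map_nsmul, hm, map_zero]⟩, fun σ => ?_⟩
  change ψ.f _ (c.1 σ) = _
  rw [hP, map_sub, ψ.nat]

/-- the push forward on the `2 ^ ∞`-Selmer groups -/
noncomputable def inf (ψ : NH W W') : SelInf W →+ SelInf W' :=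
  QuotientAddGroup.map ((cobInf W).addSubgroupOf (selInfCoc W))
    ((cobInf W').addSubgroupOf (selInfCoc W')) (infC ψ) (fun _ h => infC_cob ψ h)

/-- the class of a Selmer cocycle -/
noncomputable def ic (W : WeierstrassCurve ℚ) (c : selInfCoc W) : SelInf W :=
  QuotientAddGroup.mk' ((cobInf W).addSubgroupOf (selInfCoc W)) c

lemma ic_surj (x : SelInf W) : ∃ c, ic W c = x := QuotientAddGroup.mk'_surjective _ x

lemma ic_add (c c' : selInfCoc W) : ic W (c + c') = ic W c + ic W c' := rfl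

lemma ic_zero_iff (c : selInfCoc W) : ic W c = 0 ↔ IsCobInf W c.1 := by
  have h1 : ic W c = 0 ↔ c ∈ (QuotientAddGroup.mk' ((cobInf W).addSubgroupOf (selInfCoc W))).ker :=
    Iff.rfl
  rw [h1, QuotientAddGroup.ker_mk', AddSubgroup.mem_addSubgroupOf]
  rfl

lemma ic_sub (c c' : selInfCoc W) : ic W (c - c') = ic W c - ic W c' := rfl

lemma ic_eq {c c' : selInfCoc W} (h : IsCobInf W (c.1 - c'.1)) : ic W c = ic W c' := by
  have h1 : ic W (c - c') = 0 := (ic_zero_iff _).2 h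
  rw [ic_sub, sub_eq_zero] at h1
  exact h1

lemma inf_ic (ψ : NH W W') (c : selInfCoc W) : inf ψ (ic W c) = ic W' (infC ψ c) := rfl

theorem inf_comp_id (ψ : NH W W') (φ : NH W' W)
    (h : ∀ (L : Type) [Field L] [Algebra ℚ L] (P : Pt W L), φ.f L (ψ.f L P) = P)
    (x : SelInf W) : inf φ (inf ψ x) = x := by
  obtain ⟨c, rfl⟩ := ic_surj x
  rw [inf_ic, inf_ic]
  congr 1
  apply Subtype.ext
  funext σ
  exact h _ _

theorem inf_comp_two (ψ : NH W W') (φ : NH W' W)
    (h : ∀ (L : Type) [Field L] [Algebra ℚ L] (P : Pt W L), φ.f L (ψ.f L P) = P + P)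
    (x : SelInf W) : inf φ (inf ψ x) = x + x := by
  obtain ⟨c, rfl⟩ := ic_surj x
  rw [inf_ic, inf_ic, ← ic_add]
  congr 1
  apply Subtype.ext
  funext σ
  exact h _ _

/-- isomorphic curves have isomorphic `2 ^ ∞`-Selmer groups -/
noncomputable def infEquiv (I : Pool.Agent.Y655.XT.Iso W W') : SelInf W' ≃+ SelInf W :=
  { inf (nhI I) with
    invFun := inf (nhI I.symm)
    left_inv := inf_comp_id (nhI I) (nhI I.symm) (fun L _ _ P => (I.e L).symm_apply_apply P)
    right_inv := inf_comp_id (nhI I.symm) (nhI I) (fun L _ _ P => (I.e L).apply_symm_apply P) }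

/-- the change of variables -/
theorem inf_vr {u r s t : ℚ} (h : Pool.Agent.Y700.VR W W' u r s t) (hD : W'.Δ ≠ 0) :
    Nonempty (SelInf W' ≃+ SelInf W) := ⟨infEquiv (Pool.Agent.Y655.XT.isoVR h hD)⟩

/-! ### The map to the Tate-Shafarevich group -/

/-- the inclusion of the cocycles -/
noncomputable def incC (W : WeierstrassCurve ℚ) : selInfCoc W →+ shaCoc W :=
  AddSubgroup.inclusion (fun _ h => h.1)

lemma incC_cob {c : selInfCoc W} (h : IsCobInf W c.1) : IsCob W (incC W c).1 := by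
  obtain ⟨P, -, hP⟩ := h
  exact ⟨P, hP⟩

/-- the map to the Tate-Shafarevich group -/
noncomputable def pr (W : WeierstrassCurve ℚ) : SelInf W →+ Sha W :=
  QuotientAddGroup.map ((cobInf W).addSubgroupOf (selInfCoc W))
    ((cob W).addSubgroupOf (shaCoc W)) (incC W) (fun _ h => incC_cob h)

lemma pr_ic (c : selInfCoc W) : pr W (ic W c) = cls W (incC W c) := rfl

/-- the elements of order two -/
theorem pr_surj (hdiv : ∀ P : PC W, ∃ Q : PC W, P = Q + Q) {x : Sha W} (hx : x + x = 0) :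
    ∃ y : SelInf W, y + y = 0 ∧ pr W y = x := by
  obtain ⟨c, rfl⟩ := cls_surj x
  rw [← Pool.Agent.Y676.IS.cls_add, cls_zero_iff] at hx
  obtain ⟨P, hP⟩ := hx
  obtain ⟨Q, rfl⟩ := hdiv P
  let g : Coch W := c.1 - cb W Q
  have hg2 : ∀ σ, g σ + g σ = 0 := by
    intro σ
    have e1 : ∀ u v w : PC W, u + u = (v + v) - (w + w) →
        (u - (v - w)) + (u - (v - w)) = 0 := by
      intro u v w huv
      have e2 : (u - (v - w)) + (u - (v - w)) = (u + u) - ((v + v) - (w + w)) := by abel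
      rw [e2, huv, sub_self]
    refine e1 _ _ _ ?_
    rw [← map_add]
    exact hP σ
  have hgs : IsShaCoc W g := by
    have e0 : g = c.1 + -cb W Q := sub_eq_add_neg _ _
    rw [e0]
    exact sha_add c.2 (sha_neg (sha_cob W Q))
  have hgm : g ∈ selInfCoc W :=
    ⟨hgs, fun σ => ⟨1, by rw [pow_one, two_nsmul]; exact hg2 σ⟩⟩
  refine ⟨ic W ⟨g, hgm⟩, ?_, ?_⟩
  · rw [← ic_add]
    have : (⟨g, hgm⟩ : selInfCoc W) + ⟨g, hgm⟩ = 0 := by
      apply Subtype.ext
      funext σ
      exact hg2 σ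
    rw [this]
    rfl
  · rw [pr_ic]
    apply cls_eq
    have e3 : g - c.1 = -cb W Q := by
      change c.1 - cb W Q - c.1 = -cb W Q
      abel
    rw [show ((incC W ⟨g, hgm⟩ : shaCoc W) : Coch W) = g from rfl, e3]
    refine ⟨-Q, fun σ => ?_⟩
    change -(ga W σ Q - Q) = ga W σ (-Q) - -Q
    rw [map_neg]
    abel

/-- the rational points -/
lemma ex_rat (W : WeierstrassCurve ℚ) : ∃ j : W.toAffine.Point →+ PC W,
    Function.Injective j ∧ (∀ (σ : Gal ℚ) (P : W.toAffine.Point), ga W σ (j P) = j P) ∧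
    ∀ P : PC W, (∀ σ : Gal ℚ, ga W σ P = P) → ∃ q, j q = P := exists_rat W

/-- the elements of order two of the kernel -/
theorem pr_ker (hdiv : ∀ P : PC W, ∃ Q : PC W, P = Q + Q) (hfg : AddGroup.FG W.toAffine.Point) :
    Finite {x : SelInf W // x + x = 0 ∧ pr W x = 0} ∧
    Nat.card {x : SelInf W // x + x = 0 ∧ pr W x = 0} ≤
      2 ^ (Module.finrank ℤ W.toAffine.Point) * Nat.card {x : W.toAffine.Point // x + x = 0} := by
  classical
  obtain ⟨j, hinj, hjf, hj⟩ := ex_rat W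
  have key : ∀ x : {x : SelInf W // x + x = 0 ∧ pr W x = 0}, ∃ (c : selInfCoc W) (Q : PC W)
      (R : W.toAffine.Point), ic W c = x.1 ∧ c.1 = cb W Q ∧ Q + Q = j R := by
    intro x
    obtain ⟨h1, h2⟩ := x.2
    obtain ⟨c, hc⟩ := ic_surj x.1
    rw [← hc] at h1 h2
    rw [pr_ic, cls_zero_iff] at h2
    obtain ⟨Q, hQ⟩ := h2
    rw [← ic_add, ic_zero_iff] at h1
    obtain ⟨P, hPt, hP⟩ := h1
    obtain ⟨T, rfl⟩ := hdiv P
    have hTt := thalf hPt
    have hQ' : ∀ σ : Gal ℚ, c.1 σ = ga W σ Q - Q := hQ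
    have hP' : ∀ σ : Gal ℚ, c.1 σ + c.1 σ = ga W σ (T + T) - (T + T) := hP
    -- the fixed point
    have hfix : ∀ σ : Gal ℚ, ga W σ ((Q - T) + (Q - T)) = (Q - T) + (Q - T) := by
      intro σ
      have e1 := hP' σ
      rw [hQ' σ] at e1
      have e2 : ga W σ ((Q - T) + (Q - T)) = (ga W σ Q + ga W σ Q) - ga W σ (T + T) := by
        rw [map_add, map_sub, map_add]
        abel
      rw [e2]
      have e3 : ga W σ (T + T) = (ga W σ Q - Q + (ga W σ Q - Q)) + (T + T) := by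
        rw [e1]
        abel
      rw [e3]
      abel
    obtain ⟨R, hR⟩ := hj _ hfix
    have hcbm : cb W (Q - T) ∈ selInfCoc W := by
      have e4 : cb W (Q - T) = c.1 + -cb W T := by
        funext σ
        change ga W σ (Q - T) - (Q - T) = c.1 σ + -(ga W σ T - T)
        rw [hQ' σ, map_sub]
        abel
      refine ⟨sha_cob W _, fun σ => ?_⟩
      rw [e4]
      refine tadd (c.2.2 σ) (tneg ?_)
      obtain ⟨m, hm⟩ := hTt
      refine ⟨m, ?_⟩
      change (2 ^ m : ℕ) • (ga W σ T - T) = 0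
      rw [smul_sub, ← map_nsmul, hm, map_zero, sub_zero]
    refine ⟨⟨cb W (Q - T), hcbm⟩, Q - T, R, ?_, rfl, hR.symm⟩
    rw [← hc]
    apply ic_eq
    refine ⟨-T, tneg hTt, fun σ => ?_⟩
    change (ga W σ (Q - T) - (Q - T)) - c.1 σ = ga W σ (-T) - -T
    rw [hQ' σ, map_sub, map_neg]
    abel
  choose c Q R h1 h2 h3 using key
  have hq := Pool.Agent.Y214.SX.card_quot W.toAffine.Point hfg
  have hinj2 : Function.Injective (fun x : {x : SelInf W // x + x = 0 ∧ pr W x = 0} =>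
      (QuotientAddGroup.mk (R x) : W.toAffine.Point ⧸
        (nsmulAddMonoidHom (α := W.toAffine.Point) 2).range)) := by
    intro x y hxy
    have e1 : -R x + R y ∈ (nsmulAddMonoidHom (α := W.toAffine.Point) 2).range :=
      QuotientAddGroup.eq.1 hxy
    obtain ⟨U, hU⟩ := e1
    have hU' : U + U = -R x + R y := by
      rw [← two_nsmul]
      exact hU
    apply Subtype.ext
    rw [← h1 x, ← h1 y]
    apply ic_eq
    rw [h2 x, h2 y]
    have e2 : (Q x - Q y + j U) + (Q x - Q y + j U) = 0 := by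
      have e3 : (Q x - Q y + j U) + (Q x - Q y + j U) =
        (Q x + Q x) - (Q y + Q y) + (j U + j U) := by abel
      rw [e3, h3, h3, ← map_add, hU', map_add, map_neg]
      abel
    refine ⟨Q x - Q y + j U, ⟨1, by rw [pow_one, two_nsmul]; exact e2⟩, fun σ => ?_⟩
    change (ga W σ (Q x) - Q x) - (ga W σ (Q y) - Q y) =
      ga W σ (Q x - Q y + j U) - (Q x - Q y + j U)
    rw [map_add, map_sub, hjf σ U]
    abel
  have hT0 := Pool.Agent.Y833.SX.tors_fin hfg
  have hT : Finite {x : W.toAffine.Point // x + x = 0} :=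
    Finite.of_injective (β := {x : W.toAffine.Point // ∃ m : ℕ, (2 ^ m : ℕ) • x = 0})
      (fun x => ⟨x.1, 1, by rw [pow_one, two_nsmul]; exact x.2⟩) (fun x y hxy => by
        have h0 := Subtype.ext_iff.1 hxy
        exact Subtype.ext h0)
  have hTne : Nonempty {x : W.toAffine.Point // x + x = 0} := ⟨⟨0, add_zero 0⟩⟩
  have hTpos : 0 < Nat.card {x : W.toAffine.Point // x + x = 0} := Nat.card_pos
  have hqf : Finite (W.toAffine.Point ⧸ (nsmulAddMonoidHom (α := W.toAffine.Point) 2).range) := by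
    apply Nat.finite_of_card_ne_zero
    rw [hq]
    positivity
  rw [← hq]
  exact ⟨Finite.of_injective _ hinj2, Nat.card_le_card_of_injective _ hinj2⟩

end Pool.Agent.Q269.SelFour
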