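import Pool.Agent.Q269.SelFour.Curves

/-!
# Project SelFour: the theorems on the `2 ^ ∞`-Selmer groups
-/

set_option autoImplicit false
set_option linter.unusedSectionVars false

namespace Pool.Agent.Q269.SelFour

open Finset Filter Topology
open Pool.Agent.TH841.SH.D (Sha)
open Pool.Agent.Y667.BK (SelInf)
open Pool.Agent.Q269.ShaFour
open Pool.Agent.W307.RT (Sh Cv HasT)
open Pool.Agent.W307.SE (SelR)
open Pool.Agent.TH344.DT (ud)
open Pool.Agent.Q269.IsoFour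

/-- the relation with an isogenous curve with full 2-torsion -/
def Gd (c : ℤ × ℤ) (d : (ℤ × ℤ) × ℤ) : Prop := FR c d ∧ Dn d.1 ∧ Mn d.1 ∧
    (∀ H : ℕ, Hl H c → Hl (2000000 * H) d.1) ∧ HasT 2 (Sh d.1.1 d.1.2) ∧
      d.2 ^ 3 + d.1.1 * d.2 + d.1.2 = 0 ∧ rk c ≤ rk d.1

theorem Gd_mem {H : ℕ} {c : ℤ × ℤ} {d : (ℤ × ℤ) × ℤ} (hc : c ∈ F4 H) (h : Gd c d) :
    d.1 ∈ Cv 2 (2000000 * H) := by
  obtain ⟨-, g2, g3, g4, g5, -, -⟩ := h
  exact mem_Cv2.2 ⟨g2, g4 H (mem_F4.1 hc).2.1, g3, g5⟩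

theorem Gd_ex {H : ℕ} {c : ℤ × ℤ} (hc : c ∈ F4 H) : ∃ d, Gd c d := by
  obtain ⟨h1, h2, -, e, s, hP⟩ := mem_F4.1 hc
  exact exists_fwd h1 hP

theorem Gd_inj {H : ℕ} : ∀ c1 ∈ F4 H, ∀ c2 ∈ F4 H, ∀ d, Gd c1 d → Gd c2 d → c1 = c2 := by
  intro c1 h1 c2 h2 d r1 r2
  exact FR_inj r1.1 r2.1 (mem_F4.1 h1).2.2.1 (mem_F4.1 h2).2.2.1

theorem r4_Gd {H : ℕ} {c : ℤ × ℤ} {d : (ℤ × ℤ) × ℤ} (hc : c ∈ F4 H) (h : Gd c d) :
    (D2 (SelInf (Sh c.1 c.2))).Finite ∧ 4 * r4 c ≤ (SelR d.1.1 d.1.2).ncard := by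
  obtain ⟨C, hC⟩ := Pool.Agent.W307.FK.finh
  have h1 := (hC (2000000 * H)).1 d.1 (Gd_mem hc h)
  exact r4_le h.1 (mem_F4.1 hc).1 h.2.1 h.2.2.2.2.1 h1

theorem r4_fin {H : ℕ} {c : ℤ × ℤ} (hc : c ∈ F4 H) : (D2 (SelInf (Sh c.1 c.2))).Finite := by
  obtain ⟨d, hd⟩ := Gd_ex hc
  exact (r4_Gd hc hd).1

/-- the second moment -/
theorem avg2 : ∃ C : ℝ, ∀ H : ℕ, ∑ c ∈ F4 H, (r4 c : ℝ) ^ 2 ≤ C * (F4 H).card := by
  classical
  obtain ⟨C, hC⟩ := Pool.Agent.W307.FK.finh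
  obtain ⟨D, hD, H0, h⟩ := compare
  obtain ⟨C', hC'⟩ := all_heights (f := fun c => (r4 c : ℝ) ^ 2) (fun c => by positivity)
    (fun _ => True) (C := 3 * (max C 0 * D)) (H0 := H0) (fun H hH => by
      rw [filter_true]
      have h1 := sum_rel (F4 H) (Cv 2 (2000000 * H)) Gd (fun c => (r4 c : ℝ) ^ 2)
        (fun c => ((SelR c.1 c.2).ncard : ℝ) ^ 2) (fun c => by positivity) (fun c hc => by
          obtain ⟨d, hd⟩ := Gd_ex hc
          refine ⟨d, hd, Gd_mem hc hd, hd.2.2.2.2.2.1, ?_⟩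
          have h2 := (r4_Gd hc hd).2
          have h3 : (r4 c : ℝ) ≤ (SelR d.1.1 d.1.2).ncard := by
            have : r4 c ≤ (SelR d.1.1 d.1.2).ncard := by omega
            exact_mod_cast this
          exact pow_le_pow_left₀ (Nat.cast_nonneg _) h3 2) Gd_inj
      have h3 := (hC (2000000 * H)).2
      have h4 := (h H hH).2
      have h5 : C * ((Cv 2 (2000000 * H)).card : ℝ) ≤ max C 0 * (D * (F4 H).card) :=
        mul_le_mul (le_max_left _ _) h4 (Nat.cast_nonneg _) (le_max_right _ _)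
      calc ∑ c ∈ F4 H, (r4 c : ℝ) ^ 2 ≤ 3 * (max C 0 * (D * (F4 H).card)) := by linarith
        _ = _ := by ring)
  refine ⟨C', fun H => ?_⟩
  have := hC' H
  rwa [filter_true] at this

/-- the comparison of the proportions -/
theorem ratio_gen (S S' : Set (ℤ × ℤ))
    (hSS : ∀ (H : ℕ) (c : ℤ × ℤ) (d : (ℤ × ℤ) × ℤ), c ∈ F4 H → c ∈ S → Gd c d → d.1 ∈ S')
    {D : ℝ} (hD : 0 < D) {H : ℕ} (h1 : 0 < (F4 H).card)
    (h2 : ((Cv 2 (2000000 * H)).card : ℝ) ≤ D * (F4 H).card) :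
    (((F4 H : Set (ℤ × ℤ)) ∩ S).ncard : ℝ) / ((F4 H).card : ℝ) ≤
      3 * D * ((((Cv 2 (2000000 * H) : Finset (ℤ × ℤ)) : Set (ℤ × ℤ)) ∩ S').ncard /
        ((Cv 2 (2000000 * H)).card : ℝ)) := by
  classical
  have e1 : ∀ (T : Finset (ℤ × ℤ)) (U : Set (ℤ × ℤ)), (((T : Set (ℤ × ℤ)) ∩ U).ncard : ℝ) =
      ∑ c ∈ T, (if c ∈ U then (1 : ℝ) else 0) := by
    intro T U
    have : ((T : Set (ℤ × ℤ)) ∩ U) = ((T.filter (fun c => c ∈ U) : Finset _) :
        Set (ℤ × ℤ)) := by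
      ext c; simp
    rw [this, Set.ncard_coe_finset, sum_ite, sum_const, sum_const_zero, add_zero, nsmul_eq_mul,
      mul_one]
  have h3 := sum_rel (F4 H) (Cv 2 (2000000 * H)) Gd (fun c => if c ∈ S then (1 : ℝ) else 0)
    (fun c => if c ∈ S' then (1 : ℝ) else 0)
    (fun c => by
      change (0 : ℝ) ≤ if c ∈ S' then (1 : ℝ) else 0
      split_ifs <;> norm_num) (fun c hc => by
      obtain ⟨d, hd⟩ := Gd_ex hc
      refine ⟨d, hd, Gd_mem hc hd, hd.2.2.2.2.2.1, ?_⟩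
      by_cases h : c ∈ S
      · have := hSS H c d hc h hd
        change (if c ∈ S then (1 : ℝ) else 0) ≤ if d.1 ∈ S' then (1 : ℝ) else 0
        rw [if_pos h, if_pos this]
      · change (if c ∈ S then (1 : ℝ) else 0) ≤ if d.1 ∈ S' then (1 : ℝ) else 0
        rw [if_neg h]
        split_ifs <;> norm_num) Gd_inj
  rw [e1, e1]
  have h4 : (0 : ℝ) < (F4 H).card := by exact_mod_cast h1
  have h5 : (0 : ℝ) < (Cv 2 (2000000 * H)).card := by
    have h6 := card_fwd H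
    linarith
  rw [div_le_iff₀ h4]
  have h7 : 0 ≤ ∑ c ∈ Cv 2 (2000000 * H), (if c ∈ S' then (1 : ℝ) else 0) :=
    sum_nonneg fun c _ => by split_ifs <;> norm_num
  calc ∑ c ∈ F4 H, (if c ∈ S then (1 : ℝ) else 0)
      ≤ 3 * ∑ c ∈ Cv 2 (2000000 * H), (if c ∈ S' then (1 : ℝ) else 0) := h3
    _ = 3 * ((∑ c ∈ Cv 2 (2000000 * H), (if c ∈ S' then (1 : ℝ) else 0)) /
          (Cv 2 (2000000 * H)).card) * (Cv 2 (2000000 * H)).card := by field_simp
    _ ≤ 3 * ((∑ c ∈ Cv 2 (2000000 * H), (if c ∈ S' then (1 : ℝ) else 0)) /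
          (Cv 2 (2000000 * H)).card) * (D * (F4 H).card) := by gcongr
    _ = _ := by ring

theorem uF_le_gen : ∃ D : ℝ, 0 < D ∧ ∀ S S' : Set (ℤ × ℤ),
    (∀ (H : ℕ) (c : ℤ × ℤ) (d : (ℤ × ℤ) × ℤ), c ∈ F4 H → c ∈ S → Gd c d → d.1 ∈ S') →
    uF S ≤ D * ud S' := by
  obtain ⟨D, hD, H0, h⟩ := compare
  refine ⟨3 * D, by positivity, fun S S' hSS => ?_⟩
  have key : ∀ b : ℝ, ud S' < b → uF S ≤ 3 * D * b := by
    intro b hb
    have h1 := eventually_lt_of_limsup_lt hb (by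
      refine ⟨1, ?_⟩
      rw [eventually_map]
      exact Eventually.of_forall fun H => Pool.Agent.TH344.DT.ratio_le_one _ H)
    rw [eventually_atTop] at h1
    obtain ⟨H1, h1⟩ := h1
    unfold uF
    apply limsup_le_of_le
    · exact ⟨0, fun a ha => by
        rw [eventually_map] at ha
        obtain ⟨H, hH⟩ := ha.exists
        exact (ratF_nonneg _ H).trans hH⟩
    · filter_upwards [eventually_ge_atTop (max H0 H1)] with H hH
      obtain ⟨g1, g2⟩ := h H ((le_max_left _ _).trans hH)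
      refine (ratio_gen S S' hSS hD g1 g2).trans ?_
      have h2 := h1 (2000000 * H) (by
        have := (le_max_right H0 H1).trans hH
        omega)
      exact mul_le_mul_of_nonneg_left h2.le (by positivity)
  apply le_of_forall_pos_le_add
  intro ε hε
  have := key (ud S' + ε / (3 * D)) (by
    have : 0 < ε / (3 * D) := by positivity
    linarith)
  calc uF S ≤ 3 * D * (ud S' + ε / (3 * D)) := this
    _ = 3 * D * ud S' + ε := by field_simp

/-- the tails -/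
theorem tails4 (A : ℝ) : Tendsto (fun r : ℕ => A ^ r * uF {c | 2 ^ r ≤ r4 c}) atTop (𝓝 0) := by
  obtain ⟨D, hD, h⟩ := uF_le_gen
  have h1 := Pool.Agent.TH344.DT.tail_set Pool.Agent.TH344.DT.exc 1
    (S := fun r => {c | 2 ^ r ≤ (SelR c.1 c.2).ncard}) (fun r H c hc hr => by
      rw [pow_one]
      exact hr) |A|
  have h2 := h1.const_mul D
  rw [mul_zero] at h2
  apply squeeze_zero_norm (fun r => ?_) h2
  rw [Real.norm_eq_abs, abs_mul, abs_pow, abs_of_nonneg (uF_nonneg _)]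
  have h3 : 0 ≤ |A| ^ r := by positivity
  have h4 := h {c | 2 ^ r ≤ r4 c} {c | 2 ^ r ≤ (SelR c.1 c.2).ncard} (fun H c d hc hr hd => by
    have h5 := (r4_Gd hc hd).2
    have h6 : 2 ^ r ≤ r4 c := hr
    change 2 ^ r ≤ (SelR d.1.1 d.1.2).ncard
    omega)
  calc |A| ^ r * uF {c | 2 ^ r ≤ r4 c} ≤ |A| ^ r * (D * ud {c | 2 ^ r ≤ (SelR c.1 c.2).ncard}) :=
        mul_le_mul_of_nonneg_left h4 h3
    _ = D * (|A| ^ r * ud {c | 2 ^ r ≤ (SelR c.1 c.2).ncard}) := by ring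

/-- all the moments off a set of density zero -/
theorem moments4 : ∃ Z : Set (ℤ × ℤ),
    Tendsto (fun H : ℕ => (((F4 H : Set (ℤ × ℤ)) ∩ Z).ncard : ℝ) / ((F4 H).card : ℝ)) atTop (𝓝 0) ∧
    ∀ k : ℕ, ∃ C : ℝ, ∀ H : ℕ, ∑ᶠ c ∈ (F4 H : Set (ℤ × ℤ)) \ Z, (r4 c : ℝ) ^ k ≤
      C * (F4 H).card := by
  classical
  obtain ⟨Z', hZ1, hZ2⟩ := Pool.Agent.TH344.DT.exc
  obtain ⟨D, hD, H0, hcmp⟩ := compare
  let Z : Set (ℤ × ℤ) := {c | ∀ d, Gd c d → d.1 ∈ Z'}
  refine ⟨Z, ?_, fun k => ?_⟩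
  · rw [Metric.tendsto_atTop]
    intro ε hε
    obtain ⟨H1, hH1⟩ := hZ1 (ε / (6 * D)) (by positivity)
    refine ⟨max H0 H1, fun H hH => ?_⟩
    have hH0 : H0 ≤ H := (le_max_left _ _).trans hH
    have hH1' : H1 ≤ 2000000 * H := by
      have := (le_max_right H0 H1).trans hH
      omega
    obtain ⟨g1, g2⟩ := hcmp H hH0
    have g1' : (0 : ℝ) < (F4 H).card := by exact_mod_cast g1
    have g3 := hH1 _ hH1'
    have g4 : (((F4 H : Set (ℤ × ℤ)) ∩ Z).ncard : ℝ) ≤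
        3 * (((Cv 2 (2000000 * H)).filter (fun c => c ∈ Z')).card : ℝ) := by
      have e1 : ((F4 H : Set (ℤ × ℤ)) ∩ Z) = (((F4 H).filter (fun c => c ∈ Z) : Finset _) :
          Set (ℤ × ℤ)) := by
        ext c; simp
      rw [e1, Set.ncard_coe_finset]
      have := sum_rel ((F4 H).filter (fun c => c ∈ Z))
        ((Cv 2 (2000000 * H)).filter (fun c => c ∈ Z')) Gd (fun _ => 1) (fun _ => 1)
        (fun _ => zero_le_one) (fun c hc => by
          rw [mem_filter] at hc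
          obtain ⟨d, hd⟩ := Gd_ex hc.1
          exact ⟨d, hd, mem_filter.2 ⟨Gd_mem hc.1 hd, hc.2 d hd⟩, hd.2.2.2.2.2.1, le_rfl⟩)
        (fun c1 h1 c2 h2 d r1 r2 => Gd_inj c1 (mem_filter.1 h1).1 c2 (mem_filter.1 h2).1 d r1 r2)
      simpa using this
    rw [Real.dist_eq, sub_zero, abs_of_nonneg (by positivity), div_lt_iff₀ g1']
    calc (((F4 H : Set (ℤ × ℤ)) ∩ Z).ncard : ℝ)
        ≤ 3 * (ε / (6 * D) * (Cv 2 (2000000 * H)).card) := by linarith
      _ ≤ 3 * (ε / (6 * D) * (D * (F4 H).card)) := by gcongr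
      _ = ε / 2 * (F4 H).card := by field_simp; ring
      _ < ε * (F4 H).card := by nlinarith
  · obtain ⟨C, hC⟩ := hZ2 k
    obtain ⟨C', hC'⟩ := all_heights (f := fun c => (r4 c : ℝ) ^ k) (fun c => by positivity)
      (fun c => c ∉ Z) (C := 3 * (max C 0 * D)) (H0 := H0) (fun H hH => by
        obtain ⟨g1, g2⟩ := hcmp H hH
        have h1 := sum_rel ((F4 H).filter (fun c => c ∉ Z))
          ((Cv 2 (2000000 * H)).filter (fun c => c ∉ Z'))
          (fun c d => Gd c d ∧ d.1 ∉ Z') (fun c => (r4 c : ℝ) ^ k)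
          (fun c => ((SelR c.1 c.2).ncard : ℝ) ^ k)
          (fun c => by positivity) (fun c hc => by
            rw [mem_filter] at hc
            have hcZ := hc.2
            have : ∃ d, Gd c d ∧ d.1 ∉ Z' := by
              by_contra hcon
              push Not at hcon
              exact hcZ hcon
            obtain ⟨d, hd, hdZ⟩ := this
            refine ⟨d, ⟨hd, hdZ⟩, mem_filter.2 ⟨Gd_mem hc.1 hd, hdZ⟩, hd.2.2.2.2.2.1, ?_⟩
            have h2 := (r4_Gd hc.1 hd).2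
            have h3 : (r4 c : ℝ) ≤ (SelR d.1.1 d.1.2).ncard := by
              have : r4 c ≤ (SelR d.1.1 d.1.2).ncard := by omega
              exact_mod_cast this
            exact pow_le_pow_left₀ (Nat.cast_nonneg _) h3 k)
          (fun c1 h1 c2 h2 d r1 r2 =>
            Gd_inj c1 (mem_filter.1 h1).1 c2 (mem_filter.1 h2).1 d r1.1 r2.1)
        have h3 := hC (2000000 * H)
        have h5 : C * ((Cv 2 (2000000 * H)).card : ℝ) ≤ max C 0 * (D * (F4 H).card) :=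
          mul_le_mul (le_max_left _ _) g2 (Nat.cast_nonneg _) (le_max_right _ _)
        calc _ ≤ 3 * (max C 0 * (D * (F4 H).card)) := by linarith
          _ = _ := by ring)
    refine ⟨C', fun H => ?_⟩
    have e1 : ((F4 H : Set (ℤ × ℤ)) \ Z) = (((F4 H).filter (fun c => c ∉ Z) : Finset _) :
        Set (ℤ × ℤ)) := by
      ext c; simp
    rw [e1, finsum_mem_coe_finset]
    exact hC' H

/-- from `Ш` to the `2 ^ ∞`-Selmer group -/
theorem law_of {δ : ℝ} {H : ℕ} {c : ℤ × ℤ} (hc : c ∈ F4 H)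
    (h : LawV (δ / 2) H (Sha (Sh c.1 c.2))) (hr : (rk c : ℝ) + 2 ≤ δ / 2 * LL H) :
    LawV δ H (SelInf (Sh c.1 c.2)) := by
  obtain ⟨hD, -, -, e, s, hP⟩ := mem_F4.1 hc
  obtain ⟨k, hk1, ⟨f⟩⟩ := h
  have hfin : Finite (V2 (Sha (Sh c.1 c.2))) := Finite.of_equiv _ f.symm.toEquiv
  have hcard : Nat.card (V2 (Sha (Sh c.1 c.2))) = 2 ^ k := by
    rw [Nat.card_congr f.toEquiv, card_fun]
  obtain ⟨h1, h2, h3⟩ := two_sha hP hD hfin
  obtain ⟨l, hl1, hl2⟩ := elem_two h1 (fun x => Subtype.ext (mem_V2.1 x.2))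
  rw [hcard, hl1] at h2 h3
  rw [← pow_add] at h3
  have h4 : k ≤ l := (Nat.pow_le_pow_iff_right (by norm_num : 1 < 2)).1 h2
  have h5 : l ≤ rk c + 2 + k := (Nat.pow_le_pow_iff_right (by norm_num : 1 < 2)).1 h3
  refine ⟨l, ?_, hl2⟩
  have h4' : (k : ℝ) ≤ l := by exact_mod_cast h4
  have h5' : (l : ℝ) ≤ rk c + 2 + k := by exact_mod_cast h5
  have h6 : (0 : ℝ) ≤ rk c := Nat.cast_nonneg _
  rw [abs_le] at hk1 ⊢
  constructor
  · have : 0 ≤ δ / 2 * LL H := by linarith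
    linarith [hk1.1]
  · linarith [hk1.2]

open Classical in
/-- **almost all curves** -/
theorem law_inf (δ ε : ℝ) (hδ : 0 < δ) (hε : 0 < ε) : ∃ H0 : ℕ, ∀ H : ℕ, H0 ≤ H →
    (((F4 H).filter (fun c => ¬ LawV δ H (SelInf (Sh c.1 c.2)))).card : ℝ) ≤
      ε * (F4 H).card := by
  obtain ⟨H1, h1⟩ := law4 (δ / 2) (ε / 2) (by positivity) (by positivity)
  obtain ⟨C, hC⟩ := average
  -- a bound of the rank
  obtain ⟨R, hR⟩ : ∃ R : ℕ, 2 * max C 0 / ε ≤ (4 : ℝ) ^ R := by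
    obtain ⟨R, hR⟩ := pow_unbounded_of_one_lt (2 * max C 0 / ε) (by norm_num : (1 : ℝ) < 4)
    exact ⟨R, hR.le⟩
  have hLL : Tendsto (fun H : ℕ => LL H) atTop atTop :=
    Real.tendsto_log_atTop.comp (Real.tendsto_log_atTop.comp tendsto_natCast_atTop_atTop)
  have h2 := hLL.eventually_ge_atTop (((R : ℝ) + 2) / (δ / 2))
  rw [eventually_atTop] at h2
  obtain ⟨H2, h2⟩ := h2
  refine ⟨max H1 H2, fun H hH => ?_⟩
  have g1 := h1 H ((le_max_left _ _).trans hH)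
  have g2 := h2 H ((le_max_right _ _).trans hH)
  rw [div_le_iff₀ (by positivity)] at g2
  have hsub : (F4 H).filter (fun c => ¬ LawV δ H (SelInf (Sh c.1 c.2))) ⊆
      (F4 H).filter (fun c => ¬ LawV (δ / 2) H (Sha (Sh c.1 c.2))) ∪
      (F4 H).filter (fun c => R ≤ rk c) := by
    intro c hc
    rw [mem_filter] at hc
    rw [mem_union, mem_filter, mem_filter]
    by_contra hcon
    push Not at hcon
    obtain ⟨k1, k2⟩ := hcon
    have k3 := k1 hc.1
    have k4 := k2 hc.1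
    apply hc.2
    apply law_of hc.1 k3
    have k5 : (rk c : ℝ) ≤ R := by exact_mod_cast k4.le
    linarith
  have g3 : (((F4 H).filter (fun c => R ≤ rk c)).card : ℝ) ≤ ε / 2 * (F4 H).card := by
    have k1 : (((F4 H).filter (fun c => R ≤ rk c)).card : ℝ) * 4 ^ R ≤ C * (F4 H).card := by
      refine le_trans ?_ (hC H)
      calc (((F4 H).filter (fun c => R ≤ rk c)).card : ℝ) * 4 ^ R
          = ∑ c ∈ (F4 H).filter (fun c => R ≤ rk c), (4 : ℝ) ^ R := by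
            rw [sum_const, nsmul_eq_mul]
        _ ≤ ∑ c ∈ (F4 H).filter (fun c => R ≤ rk c), (4 : ℝ) ^ rk c := by
            apply sum_le_sum
            intro c hc
            rw [mem_filter] at hc
            exact pow_le_pow_right₀ (by norm_num) hc.2
        _ ≤ ∑ c ∈ F4 H, (4 : ℝ) ^ rk c :=
            sum_le_sum_of_subset_of_nonneg (filter_subset _ _) (fun c _ _ => by positivity)
    have k2 : C * ((F4 H).card : ℝ) ≤ ε / 2 * (F4 H).card * 4 ^ R := by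
      have k3 : C ≤ ε / 2 * 4 ^ R := by
        rw [div_le_iff₀ hε] at hR
        have := le_max_left C 0
        linarith
      calc C * ((F4 H).card : ℝ) ≤ ε / 2 * 4 ^ R * (F4 H).card :=
            mul_le_mul_of_nonneg_right k3 (Nat.cast_nonneg _)
        _ = _ := by ring
    exact le_of_mul_le_mul_right (k1.trans k2) (by positivity)
  have g4 : (((F4 H).filter (fun c => ¬ LawV δ H (SelInf (Sh c.1 c.2)))).card : ℝ) ≤
      (((F4 H).filter (fun c => ¬ LawV (δ / 2) H (Sha (Sh c.1 c.2)))).card : ℝ) +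
      (((F4 H).filter (fun c => R ≤ rk c)).card : ℝ) := by
    exact_mod_cast (card_le_card hsub).trans (card_union_le _ _)
  linarith

end Pool.Agent.Q269.SelFour
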